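import Pool.Agent.MP_1246c0_nt.H55.SpecA

/-! Ambiguous classes in a cyclic cubic layer. -/

namespace Pool.Agent.MP_1246c0_nt.H6

open NumberField IsDedekindDomain Pool.Agent.MP_db5b97_nt Pool.Agent.MP_db5b97_nt.H85
open Pool.Agent.MP_1246c0_nt.H55

section Rank

variable (F : Type) [Field F] [NumberField F]

theorem mem_SU {x : Un F} : x ∈ SU F ↔ dv F 3 x = 0 := Iff.rfl

theorem ker_dvl : SU F ⊓ (dvl F 3).ker = (H79.io F).range := by
  rw [← H79.units_eq F 3, inf_comm]
  congr 1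
  ext x
  rw [mem_Ru_iff_ord, AddMonoidHom.mem_ker, Finsupp.ext_iff]
  rfl

theorem exists_single : ∃ h : ℕ, h ≠ 0 ∧ ∀ w : Pl F 3, ∃ u ∈ SU F,
    dvl F 3 u = h • Finsupp.single w (1 : ℤ) := by
  classical
  refine ⟨_, Ru_index_ne (F := F) (l := 1), fun w => ?_⟩
  have h1 : ∀ v : Sp F, ((1 : ℕ) : 𝓞 F) ∉ v.asIdeal := fun v h =>
    v.isPrime.ne_top ((Ideal.eq_top_iff_one _).2 (by simpa using h))
  obtain ⟨x, -, e⟩ := AddSubgroup.nsmul_index_mem ((Ru F 1).map (dv F 1))
    (Finsupp.single ⟨w.1, h1 _⟩ 1)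
  have key : ∀ v : Sp F, ord v x =
      ((Ru F 1).map (dv F 1)).index * (if w.1 = v then 1 else 0 : ℤ) := fun v => by
    have := DFunLike.congr_fun e ⟨v, h1 v⟩
    rw [dv_apply, Finsupp.smul_apply, Finsupp.single_apply, nsmul_eq_mul] at this
    rw [this]
    congr 1
    exact if_congr Subtype.ext_iff rfl rfl
  refine ⟨x, ?_, ?_⟩
  · rw [mem_SU]
    ext v
    rw [dv_apply, key, if_neg (fun h : w.1 = v.1 => v.2 (h ▸ w.2)), mul_zero]
    rfl
  · ext v
    rw [dvl_apply, key, Finsupp.smul_apply, Finsupp.single_apply, nsmul_eq_mul]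
    congr 1
    exact if_congr Subtype.ext_iff.symm rfl rfl

theorem su_rank : Module.Finite ℤ (SU F) ∧
    Module.finrank ℤ (SU F) = Units.rank F + Nat.card (Pl F 3) := by
  have := Pl_finite (F := F) (l := 3) three_ne_zero
  set φ : SU F →ₗ[ℤ] (Pl F 3 →₀ ℤ) := ((dvl F 3).comp (SU F).subtype).toIntLinearMap with hφ
  have hr : ((SU F).subtype.comp (LinearMap.ker φ).subtype.toAddMonoidHom).range =
      (H79.io F).range := by
    rw [← ker_dvl]
    ext y
    constructor
    · rintro ⟨x, rfl⟩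
      exact ⟨x.1.2, x.2⟩
    · rintro ⟨h1, h2⟩
      exact ⟨⟨⟨y, h1⟩, h2⟩, rfl⟩
  have hinj : Function.Injective
      ((SU F).subtype.comp (LinearMap.ker φ).subtype.toAddMonoidHom) :=
    (SU F).subtype_injective.comp (LinearMap.ker φ).subtype_injective
  have k1 : Module.Finite ℤ (LinearMap.ker φ) :=
    H79.fin_of (H79.io F) _ (H79.io_inj F) hinj hr.le
  have k2 : Module.finrank ℤ (LinearMap.ker φ) = Units.rank F := by
    rw [← Units.finrank_eq]
    exact H79.rank_of (H79.io F) _ (H79.io_inj F) hinj hr.le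
      (by rw [hr, AddSubgroup.relIndex_self]; exact one_ne_zero)
  have k3 : Module.Finite ℤ (SU F) := by
    refine ⟨Submodule.fg_of_fg_map_of_fg_inf_ker φ (IsNoetherian.noetherian _) ?_⟩
    rw [top_inf_eq]
    exact Module.Finite.iff_fg.1 k1
  refine ⟨k3, ?_⟩
  obtain ⟨h, h0, hh⟩ := exists_single F
  have k4 : (LinearMap.range φ).toAddSubgroup.index ≠ 0 := by
    have hfg : (⊤ : AddSubgroup (Pl F 3 →₀ ℤ)).FG :=
      AddGroup.fg_def.1 (Module.Finite.iff_addGroup_fg.1 inferInstance)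
    have h1 := (AddSubgroup.isFiniteRelIndex_map_nsmulAddMonoidHom_of_fg hfg h0).relIndex_ne_zero
    rw [AddSubgroup.relIndex_top_right] at h1
    refine ne_zero_of_dvd_ne_zero h1 (AddSubgroup.index_dvd_of_le ?_)
    rintro _ ⟨D, -, rfl⟩
    show h • D ∈ LinearMap.range φ
    induction D using Finsupp.induction_linear with
    | zero => simp
    | add D E hD hE => rw [smul_add]; exact add_mem hD hE
    | single w n =>
      obtain ⟨u, hu, e⟩ := hh w
      have : h • Finsupp.single w n = n • φ ⟨u, hu⟩ := by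
        show _ = n • dvl F 3 u
        rw [e, smul_comm, Finsupp.smul_single_one]
      rw [this]
      exact Submodule.smul_mem _ _ ⟨_, rfl⟩
  have k5 : Module.finrank ℤ (LinearMap.range φ) = Nat.card (Pl F 3) := by
    have := Fintype.ofFinite (Pl F 3)
    have h1 := H79.rank_fin _ k4
    rw [Module.finrank_finsupp_self, ← Nat.card_eq_fintype_card] at h1
    exact h1
  rw [← Submodule.finrank_quotient_add_finrank (LinearMap.ker φ), φ.quotKerEquivRange.finrank_eq,
    k5, k2, add_comm]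

theorem su_tors {x : Un F} (hx : x ∈ SU F) {m : ℕ} (hm : m ≠ 0) (h : m • x = 0) :
    Units.torsionOrder F • x = 0 := by
  refine H79.tors F ?_ hm h
  rw [← ker_dvl]
  refine ⟨hx, ?_⟩
  have : m • dvl F 3 x = 0 := by rw [← map_nsmul, h, map_zero]
  exact (smul_eq_zero.1 this).resolve_left hm

theorem rank_tr [IsTotallyReal F] : Units.rank F + 1 = Module.finrank ℚ F := by
  rw [IsTotallyReal.finrank, Units.rank, Nat.sub_add_cancel Fintype.card_pos,
    InfinitePlace.card_eq_nrRealPlaces_add_nrComplexPlaces,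
    IsTotallyReal.nrComplexPlaces_eq_zero, add_zero]

theorem card_pos : 0 < Nat.card (Pl F 3) := by
  have := Pl_finite (F := F) (l := 3) three_ne_zero
  have hm : (Ideal.span {(3 : ℤ)}).IsMaximal :=
    PrincipalIdealRing.isMaximal_of_irreducible Int.prime_three.irreducible
  obtain ⟨Q, hQ, e⟩ := Ideal.exists_ideal_over_maximal_of_isIntegral (S := 𝓞 F)
    (Ideal.span {(3 : ℤ)}) (by
      rw [(RingHom.injective_iff_ker_eq_bot _).1 (algebraMap ℤ (𝓞 F)).injective_int]
      exact bot_le)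
  have h3 : ((3 : ℕ) : 𝓞 F) ∈ Q := by
    have : (3 : ℤ) ∈ Q.comap (algebraMap ℤ (𝓞 F)) := e ▸ Ideal.mem_span_singleton_self _
    simpa [Ideal.mem_comap] using this
  have : Nonempty (Pl F 3) := ⟨⟨⟨Q, hQ.isPrime, fun h0 => by simp [h0] at h3⟩, h3⟩⟩
  exact Nat.card_pos

end Rank

section Herb

variable {K F G : Type} [Field K] [NumberField K] [Field F] [NumberField F] [Algebra K F] [Group G]
  [MulSemiringAction G F] [IsGaloisGroup G K F]

/-- the Herbrand quotient of the units outside `3` -/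
theorem herb [IsTotallyReal K] [IsTotallyReal F] (σ : G) (hG : Nat.card G = 3) (hσ : σ ≠ 1)
    (hc : Nat.card (Pl F 3) = Nat.card (Pl K 3)) (hE : ∀ x ∈ SU F, σ • x ∈ SU F)
    (hk : (SU K).map (Un.inc K F) = SU F ⊓ (Df σ).ker) :
    3 ^ (Nat.card (Pl K 3) - 1) * hs (SU F) (Nm σ 3) (Df σ) = hs (SU F) (Df σ) (Nm σ 3) := by
  have hp : Nat.Prime 3 := Nat.prime_three
  have : Fact (Nat.Prime 3) := ⟨hp⟩
  have : Finite G := Nat.finite_of_card_ne_zero (hG ▸ hp.ne_zero)
  have hσp : σ ^ 3 = 1 := hG ▸ pow_card_eq_one'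
  have hgen : ∀ s : G, ∃ n : ℕ, σ ^ n = s := fun s =>
    (mem_powers_iff_mem_zpowers.2 (mem_zpowers_of_prime_card hG hσ (g' := s)))
  have stab : ∀ B : AddSubgroup (Un F), (∀ x ∈ B, σ • x ∈ B) → ∀ s : G, ∀ x ∈ B, s • x ∈ B := by
    intro B hB s x hx
    obtain ⟨n, rfl⟩ := hgen s
    induction n with
    | zero => simpa using hx
    | succ n ih => rw [pow_succ', mul_smul]; exact hB _ ih
  have stf : ∀ B : AddSubgroup (Un F), (∀ x ∈ B, σ • x ∈ B) → ∀ x ∈ B, Df σ x ∈ B :=
    fun B hB x hx => sub_mem (hB x hx) hx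
  have stg : ∀ B : AddSubgroup (Un F), (∀ x ∈ B, σ • x ∈ B) → ∀ x ∈ B, Nm σ 3 x ∈ B :=
    fun B hB x hx => H74.Nm_mem hB hx
  set E := SU F with hEdef
  set n := Units.torsionOrder F with hn
  have hn0 : n ≠ 0 := Units.torsionOrder_ne_zero F
  set A : AddSubgroup (Un F) := E.map (nsmulAddMonoidHom n) with hA
  have hAE : A ≤ E := by
    rintro _ ⟨x, hx, rfl⟩
    exact nsmul_mem hx n
  have hAs : ∀ x ∈ A, σ • x ∈ A := by
    rintro _ ⟨x, hx, rfl⟩
    exact ⟨σ • x, hE x hx, (smul_comm σ n x).symm⟩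
  obtain ⟨hEf, hEr⟩ := su_rank F
  obtain ⟨hKf, hKr⟩ := su_rank K
  have hEfg : E.FG := (AddGroup.fg_iff_addSubgroup_fg E).1 (Module.Finite.iff_addGroup_fg.1 hEf)
  have hAi : A.relIndex E ≠ 0 :=
    (AddSubgroup.isFiniteRelIndex_map_nsmulAddMonoidHom_of_fg hEfg hn0).relIndex_ne_zero
  have : Module.Finite ℤ A :=
    H79.fin_of E.subtype A.subtype E.subtype_injective A.subtype_injective
      (by rw [A.range_subtype, E.range_subtype]; exact hAE)
  have : IsAddTorsionFree A := by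
    refine ⟨fun m hm a b hab => ?_⟩
    obtain ⟨x, hx, hx'⟩ := (a - b).2
    have h0 : m • (a - b) = 0 := by
      rw [smul_sub]
      exact sub_eq_zero.2 hab
    have h1 : (m * n) • x = 0 := by
      rw [mul_smul]
      have := congrArg Subtype.val h0
      rw [AddSubgroup.coe_nsmul, ← hx'] at this
      exact this
    have h2 := su_tors F hx (mul_ne_zero hm hn0) h1
    exact sub_eq_zero.1 (Subtype.ext (hx'.symm.trans h2))
  let : DistribMulAction G A := H79.subAct A (stab A hAs)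
  have : SMulCommClass G ℤ A := ⟨fun s m x => (DistribSMul.toAddMonoidHom A s).map_zsmul m x⟩
  have cf : ∀ x : A, ((Df σ x : A) : Un F) = Df σ (x : Un F) := fun _ => rfl
  have cg : ∀ x : A, ((Nm σ 3 x : A) : Un F) = Nm σ 3 (x : Un F) := fun x => by
    rw [Nm_apply, Nm_apply, AddSubgroup.val_finsetSum]
    rfl
  set Φ : Submodule ℤ A := (Df σ : A →+ A).ker.toIntSubmodule with hΦ
  have hΦm : ∀ x, x ∈ Φ ↔ σ • x = x := fun x => sub_eq_zero
  obtain ⟨q1, -, q3⟩ := H25.rowHQ 3 hp ℤ A G σ Φ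
    (by rw [Nat.card_congr (Int.quotientSpanNatEquivZMod 3).toEquiv, Nat.card_zmod])
    (fun x => by rw [hσp, one_smul]) hΦm
  rw [H79.hc_sub A _ _ _ _ cf cg] at q1 q3
  rw [H79.hc_sub A _ _ _ _ cg cf] at q3
  have r1 : Module.finrank ℤ A = Units.rank F + Nat.card (Pl F 3) := by
    rw [← hEr]
    exact H79.rank_of E.subtype A.subtype E.subtype_injective A.subtype_injective
      (by rw [A.range_subtype, E.range_subtype]; exact hAE)
      (by rwa [A.range_subtype, E.range_subtype])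
  have r2 : Module.finrank ℤ Φ = Units.rank K + Nat.card (Pl K 3) := by
    rw [← hKr]
    have hinc : Function.Injective (Un.inc K F) := fun x y h =>
      Un.ext ((algebraMap K F).injective (congrArg Un.val h))
    have hr : (A.subtype.comp Φ.subtype.toAddMonoidHom).range = A ⊓ (Df σ).ker := by
      ext y
      constructor
      · rintro ⟨x, rfl⟩
        exact ⟨x.1.2, (cf x.1).symm.trans (congrArg Subtype.val x.2)⟩
      · rintro ⟨h1, h2⟩
        exact ⟨⟨⟨y, h1⟩, Subtype.ext h2⟩, rfl⟩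
    have hk' : ((Un.inc K F).comp (SU K).subtype).range = E ⊓ (Df σ).ker := by
      rw [← AddMonoidHom.map_range, AddSubgroup.range_subtype, hk]
    refine H79.rank_of ((Un.inc K F).comp (SU K).subtype)
      (A.subtype.comp Φ.subtype.toAddMonoidHom)
      (hinc.comp (SU K).subtype_injective) (A.subtype_injective.comp Φ.subtype_injective) ?_ ?_
    · rw [hr, hk']
      exact inf_le_inf_right _ hAE
    · rw [hr, hk', ← AddSubgroup.inf_relIndex_right, inf_assoc, inf_comm (Df σ).ker, inf_assoc,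
        inf_idem, AddSubgroup.inf_relIndex_right]
      exact fun h => hAi (AddSubgroup.relIndex_eq_zero_of_le_right inf_le_left h)
  have d1 := rank_tr K
  have d2 := rank_tr F
  rw [← Module.finrank_mul_finrank ℚ K F, ← IsGaloisGroup.card_eq_finrank G K F, hG, ← d1] at d2
  obtain ⟨c, hc'⟩ : ∃ c, Nat.card (Pl K 3) = c + 1 :=
    Nat.exists_eq_succ_of_ne_zero (card_pos K).ne'
  rw [r1, r2, hc, hc', show Units.rank F + (c + 1) = 3 * Units.rank K + c + 3 by omega,
    show 3 * (Units.rank K + (c + 1)) = 2 * c + (3 * Units.rank K + c + 3) by omega,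
    pow_add 3 (2 * c), ← mul_assoc] at q3
  have q4 := Nat.eq_of_mul_eq_mul_right (by positivity) q3
  have q5 : 3 ^ c * hs A (Nm σ 3) (Df σ) = hs A (Df σ) (Nm σ 3) := by
    refine Nat.pow_left_injective (two_ne_zero) ?_
    show (_ : ℕ) ^ 2 = _ ^ 2
    rw [show 3 - 1 = 2 from rfl] at q4
    rw [q4]
    ring
  rw [hc', Nat.add_sub_cancel]
  exact (H79.hs_up _ A E hAE hAi _ _ (H79.Nm_Df σ 3 hσp) (H79.Df_Nm σ 3 hσp) (stg A hAs)
    (stf A hAs) (stg E hE) (stf E hE) q5 q1).1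

end Herb

theorem rowLAYER : RowLAYER := by
  intro K F G _ _ _ _ _ _ _ _ _ _ hG hun hc hK
  have h1 := H10.rowNT1
  have h2 := rowNT2
  have hp : Nat.Prime 3 := Nat.prime_three
  have : Finite G := Nat.finite_of_card_ne_zero (hG ▸ hp.ne_zero)
  have : Nontrivial G := Finite.one_lt_card_iff_nontrivial.1 (by omega)
  obtain ⟨σ, hσ⟩ := exists_ne (1 : G)
  have : FaithfulSMul G F := IsGaloisGroup.faithful K
  have hs3 : σ ^ 3 = 1 := hG ▸ pow_card_eq_one'
  have hn : σ ∈ Subgroup.normalizer ((⊥ : Subgroup G) : Set G) :=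
    Subgroup.le_normalizer_of_normal (K := ⊤) trivial
  have hb : σ ^ 3 ∈ (⊥ : Subgroup G) := hs3
  have ea : ∀ (s : G) x, dv F 3 (s • x) = s • dv F 3 x := fun s x => by
    ext w
    rw [Finsupp.comapSMul_apply, dv_apply, dv_apply, show (s⁻¹ • w).1 = s⁻¹ • w.1 from rfl,
      ← h2.ord_smul F G s (s⁻¹ • w.1) x, smul_inv_smul]
  have kA : (Df σ).ker = (Un.inc K F).range := by
    ext x; rw [h2.inc_range K F G, H74.fix_iff hp hG hσ]
  have kI : (Df σ).ker = (con K F 3).range := by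
    ext x; rw [h2.con_range K F G, H74.fix_iff hp hG hσ]
  have iA : Function.Injective (Un.inc K F) := fun x y h =>
    Un.ext ((algebraMap K F).injective (congrArg Un.val h))
  have iI : Function.Injective (con K F 3) := fun x y h => by
    ext v
    obtain ⟨w, rfl⟩ := (h1.und_surj K F 3).2 v
    exact DFunLike.congr_fun h w
  have di : ∀ x, dv F 3 (Un.inc K F x) = con K F 3 (dv K 3 x) := fun x => by
    ext w
    rw [dv_apply, h2.ord_inc, hun w, Nat.cast_one, one_mul]
    rfl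
  have nA := h2.inc_nrm K F G σ 3 hp hG hσ
  have h90 := H74.ker_le_range (h2.h1u F G 3 ⊥ σ hp hn hb hσ)
  have key : ∀ y D0, dv F 3 y = con K F 3 D0 → ∃ z, dv F 3 (Un.inc K F z) = con K F 3 D0 ∧
      dv K 3 z = D0 := by
    intro y D0 e
    have hfix := (h2.con_range K F G 3 (con K F 3 D0)).1 ⟨D0, rfl⟩
    obtain ⟨z, hz⟩ := hK D0 ⟨Un.nrm K F y, iI (by
      rw [← di, nA, H74.map_Nm _ ea, e, Nm_apply, map_nsmul]
      simp only [hfix, Finset.sum_const, Finset.card_range])⟩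
    exact ⟨z, by rw [di, hz], hz⟩
  have hE : ∀ x ∈ SU F, σ • x ∈ SU F := fun x hx => by
    rw [mem_SU] at hx ⊢
    rw [ea, hx, smul_zero]
  have hk : (SU K).map (Un.inc K F) = SU F ⊓ (Df σ).ker := by
    ext y
    constructor
    · rintro ⟨x, hx, rfl⟩
      refine ⟨?_, kA.ge ⟨x, rfl⟩⟩
      show dv F 3 _ = 0
      rw [di, (mem_SU K).1 hx, map_zero]
    · rintro ⟨hy, hy'⟩
      obtain ⟨x, rfl⟩ := kA.le hy'
      refine ⟨x, iI ?_, rfl⟩
      rw [← di, map_zero]
      exact hy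
  have hone : hs (SU F) (Nm σ 3) (Df σ) = 1 := by
    refine AddSubgroup.relIndex_eq_one.2 ?_
    rintro u ⟨hu, hu'⟩
    obtain ⟨y, rfl⟩ := h90 hu'
    obtain ⟨D0, hD⟩ := kI.le (show dv F 3 y ∈ (Df σ).ker by
      rw [AddMonoidHom.mem_ker, ← H74.map_Df _ ea]; exact hu)
    obtain ⟨z, hz, -⟩ := key y D0 hD.symm
    refine ⟨y - Un.inc K F z, ?_, ?_⟩
    · show dv F 3 _ = 0
      rw [map_sub, hz, hD, sub_self]
    · rw [map_sub, AddMonoidHom.mem_ker.1 (kA.ge ⟨z, rfl⟩), sub_zero]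
  constructor
  · have := herb σ hG hσ hc hE hk
    rw [hone, mul_one, hs, ← hk] at this
    rw [this, ← AddSubgroup.relIndex_map_map_of_injective _ _ iA, AddSubgroup.map_map]
    congr 2
    exact AddMonoidHom.ext nA
  · intro hle
    have step : ∀ D : Dv F 3, 3 • D ∈ (dv F 3).range → Df σ D ∈ (dv F 3).range →
        D ∈ (dv F 3).range := by
      rintro D ⟨y0, e0⟩ ⟨x, e⟩
      have hx : Un.nrm K F x ∈ SU K := iI (by
        rw [← di, nA, H74.map_Nm _ ea, e, H74.Nm_Df hs3, map_zero])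
      obtain ⟨u, hu, eu⟩ := hle ⟨hx, x, rfl⟩
      obtain ⟨y, ey⟩ := h90 (show x - u ∈ (Nm σ 3).ker by
        rw [AddMonoidHom.mem_ker, ← nA, map_sub, eu, sub_self, map_zero])
      obtain ⟨D0, hD⟩ := kI.le (show D - dv F 3 y ∈ (Df σ).ker by
        rw [AddMonoidHom.mem_ker, map_sub, ← H74.map_Df _ ea, ey, map_sub, e, (mem_SU F).1 hu,
          sub_zero, sub_self])
      obtain ⟨z, -, hz⟩ := key (y0 - 3 • y) (3 • D0) (by
        rw [map_sub, map_nsmul, map_nsmul, e0, hD, smul_sub])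
      obtain ⟨z', hz'⟩ := hK D0 ⟨z, hz⟩
      exact ⟨y + Un.inc K F z', by rw [map_add, di, hz', hD, add_sub_cancel]⟩
    have st : ∀ D ∈ (dv F 3).range, σ • D ∈ (dv F 3).range := by
      rintro _ ⟨x, rfl⟩
      exact ⟨σ • x, ea σ x⟩
    have st3 : ∀ D : Dv F 3, 3 • D ∈ (dv F 3).range → 3 • Df σ D ∈ (dv F 3).range := by
      intro D hD
      rw [← map_nsmul]
      exact sub_mem (st _ hD) hD
    intro D hD
    refine step D hD (step _ (st3 _ hD) (step _ (st3 _ (st3 _ hD)) ?_))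
    have e3 : σ • σ • σ • D = D := by
      rw [← mul_smul, ← mul_smul, show σ * σ * σ = σ ^ 3 by rw [pow_succ, pow_two], hs3, one_smul]
    have : Df σ (Df σ (Df σ D)) = σ • (3 • D) - σ • σ • (3 • D) := by
      simp only [Df_apply, smul_sub, e3, succ_nsmul, zero_nsmul, smul_add, smul_zero]
      abel
    rw [this]
    exact sub_mem (st _ hD) (st _ (st _ hD))

end Pool.Agent.MP_1246c0_nt.H6
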